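import Pool.Agent.Helper88.PP.Defs

/-!
# Project PP (MP_120218_co), M2: the valuations at few primes are almost determined by the sum
-/

set_option autoImplicit false

open Finset

namespace Pool.Agent.Helper78.PP

open Pool.Agent.Helper15.BP Pool.Agent.Helper84.TR Pool.Agent.Helper88.RT Pool.Agent.Helper88.PP

variable {Ω Ω' : Type} [Fintype Ω] [Fintype Ω']

/-! ### entropy lemmas -/

theorem CE_mono_supp {α β γ : Type} {w : Ω → ℝ} (hw : IsPr w) (f : Ω → α) (f' : Ω → β)
    (g : Ω → γ)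
    (h : ∀ o o', w o ≠ 0 → w o' ≠ 0 → g o = g o' → f o = f o' → f' o = f' o') :
    CE w f' g ≤ CE w f g := by
  have h1 : CE w f' g ≤ CE w (fun o => (f' o, f o)) g :=
    CE_mono hw fun o o' _ hh => congrArg Prod.fst hh
  have h2 := CE_chain w f' f g
  have h3 : CE w f' (fun o => (f o, g o)) = 0 := by
    apply CE_zero_of_supp
    intro o o' ho ho' hh
    exact h o o' ho ho' (congrArg Prod.snd hh) (congrArg Prod.fst hh)
  linarith

theorem CE_swap {α β : Type} (w : Ω → ℝ) (w' : Ω' → ℝ) (f : Ω × Ω' → α) (g : Ω × Ω' → β) :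
    CE (prodW w w') f g = CE (prodW w' w) (fun p => f p.swap) (fun p => g p.swap) := by
  have h : ∀ o : Ω × Ω', prodW w' w (Equiv.prodComm Ω Ω' o) = prodW w w' o := by
    intro o
    unfold prodW
    exact mul_comm _ _
  have e : ∀ {γ : Type} (u : Ω × Ω' → γ),
      Ent (prodW w w') u = Ent (prodW w' w) (fun p => u p.swap) := fun u =>
    Ent_equiv (Equiv.prodComm Ω Ω') h (fun p => u p.swap)
  unfold CE
  rw [e, e]

theorem Ent_prop_le {w : Ω → ℝ} (hw : IsPr w) (J : Ω → Prop) : Ent w J ≤ Real.log 2 := by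
  rw [Ent_event hw]
  exact Real.binEntropy_le_log_two

theorem cw_supp {α : Type} {w : Ω → ℝ} {A : Ω → α} {a : α} {o : Ω} (h : cw w A a o ≠ 0) :
    A o = a ∧ w o ≠ 0 := by
  classical
  unfold cw at h
  by_cases h1 : A o = a
  · rw [if_pos h1] at h
    exact ⟨h1, fun h2 => h (by rw [h2, zero_div])⟩
  · rw [if_neg h1] at h
    exact absurd rfl h

/-- revealing `A(X)` and `B(Z)` and continuing in the cells -/
theorem cell_step {α β γ : Type} {η : ℝ} (hη : 0 ≤ η) {w : Ω → ℝ} {w' : Ω' → ℝ} (hw : IsPr w)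
    (hw' : IsPr w') (X : Ω → ℤ) (Z : Ω' → ℤ) (G : Ω × Ω' → γ) (A : Ω → α) (B : Ω' → β)
    [DecidableEq α] [DecidableEq β] (c : α → β → ℝ) (hc : ∀ a b, 0 ≤ c a b)
    (h : ∀ a b, pr w A a ≠ 0 → pr w' B b ≠ 0 →
      CE (prodW (cw w A a) (cw w' B b)) G (fun p => X p.1 + Z p.2) ≤
        η * (Ent (cw w A a) X + Ent (cw w' B b) Z) + c a b) :
    CE (prodW w w') G (fun p => X p.1 + Z p.2) ≤
      CE (prodW w w') (fun p => (A p.1, B p.2)) (fun p => X p.1 + Z p.2) +
        η * (CE w X A + CE w' Z B) +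
        ∑ a ∈ univ.image A, ∑ b ∈ univ.image B, pr w A a * pr w' B b * c a b := by
  have hp := hw.prod hw'
  have h1 : CE (prodW w w') G (fun p => X p.1 + Z p.2) ≤
      CE (prodW w w') (fun p => (G p, (A p.1, B p.2))) (fun p => X p.1 + Z p.2) :=
    CE_mono hp fun o o' _ hh => congrArg Prod.fst hh
  have h2 := CE_chain (prodW w w') G (fun p => (A p.1, B p.2)) (fun p => X p.1 + Z p.2)
  have h3 : CE (prodW w w') G (fun p => ((A p.1, B p.2), X p.1 + Z p.2)) =
      CE (prodW w w') G (fun p => (X p.1 + Z p.2, (A p.1, B p.2))) := by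
    apply CE_congr
    · intro o o'
      simp only [Prod.mk.injEq]
      tauto
    · intro o o' _
      exact Iff.rfl
  set F : α × β → ℝ := fun ab => pr w A ab.1 * pr w' B ab.2 *
    (η * (Ent (cw w A ab.1) X + Ent (cw w' B ab.2) Z) + c ab.1 ab.2) with hF
  have hFnn : ∀ ab, 0 ≤ F ab := by
    intro ab
    simp only [hF]
    by_cases ha : pr w A ab.1 = 0
    · rw [ha]; simp
    by_cases hb : pr w' B ab.2 = 0
    · rw [hb]; simp
    have g3 := Ent_nonneg (cw_isPr hw A ab.1 ha) X
    have g4 := Ent_nonneg (cw_isPr hw' B ab.2 hb) Z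
    have g6 := pr_nonneg hw A ab.1
    have g7 := pr_nonneg hw' B ab.2
    have g8 := hc ab.1 ab.2
    positivity
  have h4 : CE (prodW w w') G (fun p => (X p.1 + Z p.2, (A p.1, B p.2))) ≤
      ∑ a ∈ univ.image A, ∑ b ∈ univ.image B, F (a, b) := by
    rw [CE_fib hp G (fun p => X p.1 + Z p.2) (fun p => (A p.1, B p.2))]
    have h5 : ∀ ab ∈ univ.image (fun p : Ω × Ω' => (A p.1, B p.2)),
        pr (prodW w w') (fun p => (A p.1, B p.2)) ab *
          CE (cw (prodW w w') (fun p => (A p.1, B p.2)) ab) G (fun p => X p.1 + Z p.2) ≤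
          F ab := by
      rintro ⟨a, b⟩ _
      rw [pr_prod, cw_prod]
      simp only [hF]
      by_cases ha : pr w A a = 0
      · rw [ha]; simp
      by_cases hb : pr w' B b = 0
      · rw [hb]; simp
      exact mul_le_mul_of_nonneg_left (h a b ha hb)
        (mul_nonneg (pr_nonneg hw A a) (pr_nonneg hw' B b))
    refine (sum_le_sum h5).trans ?_
    have hsub : univ.image (fun p : Ω × Ω' => (A p.1, B p.2)) ⊆
        (univ.image A) ×ˢ (univ.image B) := by
      intro ab hab
      obtain ⟨p, -, rfl⟩ := mem_image.1 hab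
      rw [mem_product]
      exact ⟨mem_image_of_mem _ (mem_univ _), mem_image_of_mem _ (mem_univ _)⟩
    refine (sum_le_sum_of_subset_of_nonneg hsub fun ab _ _ => hFnn ab).trans (le_of_eq ?_)
    rw [sum_product]
  have sA := sum_pr_one hw A
  have sB := sum_pr_one hw' B
  have eA := Ent_fib hw X A
  have eB := Ent_fib hw' Z B
  have h6 : ∑ a ∈ univ.image A, ∑ b ∈ univ.image B, F (a, b) =
      η * (CE w X A + CE w' Z B) +
        ∑ a ∈ univ.image A, ∑ b ∈ univ.image B, pr w A a * pr w' B b * c a b := by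
    have h7 : ∀ a ∈ univ.image A, ∑ b ∈ univ.image B, F (a, b) =
        η * (pr w A a * Ent (cw w A a) X) + η * CE w' Z B * pr w A a +
          ∑ b ∈ univ.image B, pr w A a * pr w' B b * c a b := by
      intro a _
      have h8 : ∀ b ∈ univ.image B, F (a, b) =
          η * (pr w A a * Ent (cw w A a) X) * pr w' B b +
            η * pr w A a * (pr w' B b * Ent (cw w' B b) Z) + pr w A a * pr w' B b * c a b := by
        intro b _
        simp only [hF]
        ring
      rw [sum_congr rfl h8, sum_add_distrib, sum_add_distrib, ← mul_sum, ← mul_sum, sB, ← eB]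
      ring
    rw [sum_congr rfl h7, sum_add_distrib, sum_add_distrib, ← mul_sum, ← mul_sum, sA, ← eA]
    ring
  rw [h2, h3] at h1
  rw [h6] at h4
  linarith

/-! ### the claims -/

/-- the bound for the valuations at `Q`, with the additive constant `c` -/
def Cl (η c : ℝ) (T : ℕ) (Q : Finset ℕ) (w : Ω → ℝ) (w' : Ω' → ℝ) (X : Ω → ℤ) (Z : Ω' → ℤ) :
    Prop :=
  CE (prodW w w') (fun p => (vP T Q (X p.1), vP T Q (Z p.2))) (fun p => X p.1 + Z p.2) ≤
    η * (Ent w X + Ent w' Z) + c

theorem Cl.swap {η c : ℝ} {T : ℕ} {Q : Finset ℕ} {w : Ω → ℝ} {w' : Ω' → ℝ} {X : Ω → ℤ}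
    {Z : Ω' → ℤ} (h : Cl η c T Q w w' X Z) : Cl η c T Q w' w Z X := by
  unfold Cl at h ⊢
  rw [CE_swap]
  rw [add_comm (Ent w' Z)]
  refine le_trans (le_of_eq ?_) h
  apply CE_congr
  · intro o o'
    simp only [Prod.fst_swap, Prod.snd_swap]
    rw [add_comm (Z o.2), add_comm (Z o'.2)]
  · intro o o' _
    simp only [Prod.fst_swap, Prod.snd_swap, Prod.mk.injEq]
    tauto

theorem Cl.mono {η c c' : ℝ} {T : ℕ} {Q : Finset ℕ} {w : Ω → ℝ} {w' : Ω' → ℝ} {X : Ω → ℤ}
    {Z : Ω' → ℤ} (h : Cl η c T Q w w' X Z) (hc : c ≤ c') : Cl η c' T Q w w' X Z := by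
  unfold Cl at h ⊢
  linarith

theorem vt_eq {T q t : ℕ} (ht : t < T) {x : ℤ} (h1 : (q : ℤ) ^ t ∣ x)
    (h2 : ¬ (q : ℤ) ^ (t + 1) ∣ x) : vt T q x = t := by
  unfold vt
  have h3 : (range T).filter (fun s => ((q : ℤ) ^ (s + 1) ∣ x)) = range t := by
    ext s
    rw [mem_filter, mem_range, mem_range]
    constructor
    · rintro ⟨_, h4⟩
      by_contra h5
      exact h2 ((pow_dvd_pow _ (by omega)).trans h4)
    · intro h4
      exact ⟨by omega, (pow_dvd_pow _ (by omega)).trans h1⟩
  rw [h3, card_range]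

theorem vt_top {T q : ℕ} {x : ℤ} (h1 : (q : ℤ) ^ T ∣ x) : vt T q x = T := by
  unfold vt
  have h3 : (range T).filter (fun s => ((q : ℤ) ^ (s + 1) ∣ x)) = range T := by
    ext s
    rw [mem_filter, mem_range]
    constructor
    · exact fun h => h.1
    · intro h4
      exact ⟨h4, (pow_dvd_pow _ (by omega)).trans h1⟩
  rw [h3, card_range]

/-- the induction hypothesis for `P` -/
def IH (η K : ℝ) (T : ℕ) (P : Finset ℕ) : Prop :=
  ∀ (Ω Ω' : Type) [Fintype Ω] [Fintype Ω'] (w : Ω → ℝ) (w' : Ω' → ℝ) (X : Ω → ℤ) (Z : Ω' → ℤ),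
    IsPr w → IsPr w' → Cl η K T P w w' X Z

/-- both valuations at `q` are known -/
theorem caseRR {η K : ℝ} {T : ℕ} {P : Finset ℕ} (hIH : IH η K T P) (q : ℕ) {w : Ω → ℝ}
    {w' : Ω' → ℝ} (hw : IsPr w) (hw' : IsPr w') (X : Ω → ℤ) (Z : Ω' → ℤ) (a b : ℕ)
    (hX : ∀ o, w o ≠ 0 → vt T q (X o) = a) (hZ : ∀ o, w' o ≠ 0 → vt T q (Z o) = b) :
    Cl η K T (insert q P) w w' X Z := by
  have h := hIH Ω Ω' w w' X Z hw hw'
  unfold Cl at h ⊢
  refine le_trans (CE_mono_supp (hw.prod hw') _ _ _ ?_) h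
  rintro ⟨o1, o2⟩ ⟨o3, o4⟩ ho ho' _ hF
  have e1 : w o1 ≠ 0 := fun h0 => ho (by unfold prodW; simp only; rw [h0, zero_mul])
  have e2 : w' o2 ≠ 0 := fun h0 => ho (by unfold prodW; simp only; rw [h0, mul_zero])
  have e3 : w o3 ≠ 0 := fun h0 => ho' (by unfold prodW; simp only; rw [h0, zero_mul])
  have e4 : w' o4 ≠ 0 := fun h0 => ho' (by unfold prodW; simp only; rw [h0, mul_zero])
  simp only [Prod.mk.injEq] at hF ⊢
  constructor
  · funext q'
    have h5 := congrFun hF.1 q'
    unfold vP at h5 ⊢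
    by_cases hq : q' = q
    · rw [hq, hX o1 e1, hX o3 e3]
    · simp only [mem_insert, hq, false_or]
      exact h5
  · funext q'
    have h5 := congrFun hF.2 q'
    unfold vP at h5 ⊢
    by_cases hq : q' = q
    · rw [hq, hZ o2 e2, hZ o4 e4]
    · simp only [mem_insert, hq, false_or]
      exact h5

/-- conditioning on a function -/
theorem CE_self {α : Type} {w : Ω → ℝ} (X : Ω → ℤ) (f : ℤ → α) :
    CE w X (fun o => f (X o)) = Ent w X - Ent w (fun o => f (X o)) := by
  unfold CE
  rw [Ent_congr (f := fun o => (X o, f (X o))) (g := X)]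
  intro o o'
  simp only [Prod.mk.injEq]
  exact ⟨fun h => h.1, fun h => ⟨h, by rw [h]⟩⟩

/-- revealing both classes modulo `n`, when `Z` is mostly `0` modulo `n` -/
theorem step_mod {η σ : ℝ} (hη : 0 ≤ η) (hcol : ColProp η σ) {w : Ω → ℝ} {w' : Ω' → ℝ}
    (hw : IsPr w) (hw' : IsPr w') (X : Ω → ℤ) (Z : Ω' → ℤ) (n : ℕ)
    (hm : mass w' (fun o => ((Z o : ℤ) : ZMod n) ≠ 0) ≤ σ) {γ : Type} (G : Ω × Ω' → γ) (c : ℝ)
    (hc : 0 ≤ c)
    (h : ∀ a b : ZMod n, pr w (fun o => ((X o : ℤ) : ZMod n)) a ≠ 0 →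
      pr w' (fun o => ((Z o : ℤ) : ZMod n)) b ≠ 0 →
      CE (prodW (cw w (fun o => ((X o : ℤ) : ZMod n)) a) (cw w' (fun o => ((Z o : ℤ) : ZMod n)) b))
        G (fun p => X p.1 + Z p.2) ≤
        η * (Ent (cw w (fun o => ((X o : ℤ) : ZMod n)) a) X +
          Ent (cw w' (fun o => ((Z o : ℤ) : ZMod n)) b) Z) + c) :
    CE (prodW w w') G (fun p => X p.1 + Z p.2) ≤ η * (Ent w X + Ent w' Z) + c := by
  classical
  have hp := hw.prod hw'
  have h1 := cell_step hη hw hw' X Z G (fun o => ((X o : ℤ) : ZMod n))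
    (fun o => ((Z o : ℤ) : ZMod n)) (fun _ _ => c) (fun _ _ => hc) h
  have h2 : ∑ a ∈ univ.image (fun o => ((X o : ℤ) : ZMod n)),
      ∑ b ∈ univ.image (fun o => ((Z o : ℤ) : ZMod n)),
      pr w (fun o => ((X o : ℤ) : ZMod n)) a * pr w' (fun o => ((Z o : ℤ) : ZMod n)) b * c = c := by
    have sA := sum_pr_one hw (fun o => ((X o : ℤ) : ZMod n))
    have sB := sum_pr_one hw' (fun o => ((Z o : ℤ) : ZMod n))
    have h3 : ∀ a ∈ univ.image (fun o => ((X o : ℤ) : ZMod n)),
        ∑ b ∈ univ.image (fun o => ((Z o : ℤ) : ZMod n)),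
        pr w (fun o => ((X o : ℤ) : ZMod n)) a * pr w' (fun o => ((Z o : ℤ) : ZMod n)) b * c =
        pr w (fun o => ((X o : ℤ) : ZMod n)) a * c := by
      intro a _
      rw [← sum_mul, ← mul_sum, sB, mul_one]
    rw [sum_congr rfl h3, ← sum_mul, sA, one_mul]
  have h4 : CE (prodW w w') (fun p => (((X p.1 : ℤ) : ZMod n), ((Z p.2 : ℤ) : ZMod n)))
      (fun p => X p.1 + Z p.2) ≤
      η * (Ent w (fun o => ((X o : ℤ) : ZMod n)) + Ent w' (fun o => ((Z o : ℤ) : ZMod n))) := by
    have h5 : CE (prodW w w') (fun p => (((X p.1 : ℤ) : ZMod n), ((Z p.2 : ℤ) : ZMod n)))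
        (fun p => X p.1 + Z p.2) ≤
        CE (prodW w w') (fun p => ((X p.1 : ℤ) : ZMod n)) (fun p => X p.1 + Z p.2) := by
      apply CE_mono hp
      intro o o' hs hx
      simp only [Prod.mk.injEq]
      refine ⟨hx, ?_⟩
      have h6 : (((X o.1 + Z o.2 : ℤ)) : ZMod n) = ((X o'.1 + Z o'.2 : ℤ) : ZMod n) := by
        rw [hs]
      push_cast at h6
      rw [hx] at h6
      exact add_left_cancel h6
    have h6 : CE (prodW w w') (fun p => ((X p.1 : ℤ) : ZMod n)) (fun p => X p.1 + Z p.2) ≤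
        CE (prodW w w') (fun p => ((X p.1 : ℤ) : ZMod n))
          (fun p => ((X p.1 : ℤ) : ZMod n) + ((Z p.2 : ℤ) : ZMod n)) := by
      apply CE_anti hp
      intro o o' hs
      have h7 : (((X o.1 + Z o.2 : ℤ)) : ZMod n) = ((X o'.1 + Z o'.2 : ℤ) : ZMod n) := by
        rw [hs]
      push_cast at h7
      exact h7
    have h7 := hcol Ω Ω' (ZMod n) w w' (fun o => ((X o : ℤ) : ZMod n))
      (fun o => ((Z o : ℤ) : ZMod n)) hw hw' hm
    linarith
  have h8 := CE_self (w := w) X (fun x => (x : ZMod n))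
  have h9 := CE_self (w := w') Z (fun x => (x : ZMod n))
  rw [h2, h8, h9] at h1
  nlinarith

/-- mass of the complement -/
theorem pr_prop {w : Ω → ℝ} (J : Ω → Prop) : pr w J True = mass w J := pr_true w J

theorem pr_false {w : Ω → ℝ} (J : Ω → Prop) : pr w J False = mass w (fun o => ¬ J o) := by
  classical
  unfold pr mass
  apply sum_congr rfl
  intro o _
  by_cases h : J o
  · rw [if_neg (fun h2 => of_eq_false h2 h), if_neg (fun h2 => h2 h)]
  · rw [if_pos (eq_false h), if_pos h]

/-- the average of a function of an event -/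
theorem sum_bit [DecidableEq Prop] {w : Ω → ℝ} (hw : IsPr w) (J : Ω → Prop) (F : Prop → ℝ) :
    ∑ j ∈ univ.image J, pr w J j * F j = mass w J * F True + (1 - mass w J) * F False := by
  classical
  rw [← sum_w_comp w J F, ← hw.sum_one]
  have h1 : mass w J = ∑ o, (if J o then w o else 0) := by
    unfold mass
    exact sum_congr rfl fun o _ => by congr
  rw [h1, sub_mul, sum_mul, sum_mul, sum_mul, ← sum_sub_distrib, ← sum_add_distrib]
  apply sum_congr rfl
  intro o _
  by_cases h : J o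
  · rw [if_pos h, eq_true h]
    ring
  · rw [if_neg h, eq_false h]
    ring

section q
variable {η σ K : ℝ} {T : ℕ} {P : Finset ℕ} {q : ℕ}

/-- `v_q(X)` is known and `q ^ t` divides `Z`; here `q ^ (t + 1)` mostly divides `Z` -/
theorem caseRU_small (hη : 0 ≤ η) (hcol : ColProp η σ) (hK : 0 ≤ K) (hIH : IH η K T P) {b : ℝ}
    (hb : 0 ≤ b) {t : ℕ} (ht : t < T)
    (hnext : ∀ (Ω Ω' : Type) [Fintype Ω] [Fintype Ω'] (w : Ω → ℝ) (w' : Ω' → ℝ) (X : Ω → ℤ)
      (Z : Ω' → ℤ) (a : ℕ), IsPr w → IsPr w' → (∀ o, w o ≠ 0 → vt T q (X o) = a) →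
      (∀ o, w' o ≠ 0 → (q : ℤ) ^ (t + 1) ∣ Z o) → Cl η (K + b) T (insert q P) w w' X Z)
    {w : Ω → ℝ} {w' : Ω' → ℝ} (hw : IsPr w) (hw' : IsPr w') (X : Ω → ℤ) (Z : Ω' → ℤ) (a : ℕ)
    (hX : ∀ o, w o ≠ 0 → vt T q (X o) = a) (hZ : ∀ o, w' o ≠ 0 → (q : ℤ) ^ t ∣ Z o)
    (hm : mass w' (fun o => ¬ (q : ℤ) ^ (t + 1) ∣ Z o) ≤ σ) :
    Cl η (K + b) T (insert q P) w w' X Z := by
  unfold Cl
  have hzero : ∀ x : ℤ, ((x : ℤ) : ZMod (q ^ (t + 1))) = 0 ↔ (q : ℤ) ^ (t + 1) ∣ x := by
    intro x
    rw [← Int.cast_zero, ZMod.intCast_eq_intCast_iff_dvd_sub, zero_sub, dvd_neg]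
    push_cast
    rfl
  apply step_mod hη hcol hw hw' X Z (q ^ (t + 1))
  · refine le_trans (mass_mono hw' ?_) hm
    intro o ho hd
    exact ho ((hzero _).2 hd)
  · linarith
  · intro x z hx hz
    have hw1 := cw_isPr hw _ x hx
    have hw2 := cw_isPr hw' _ z hz
    by_cases hz0 : z = 0
    · apply hnext _ _ _ _ _ _ a hw1 hw2
      · intro o ho
        exact hX o (cw_supp ho).2
      · intro o ho
        have h1 := (cw_supp ho).1
        rw [hz0] at h1
        exact (hzero _).1 h1
    · refine Cl.mono (caseRR hIH q hw1 hw2 X Z a t ?_ ?_) (by linarith)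
      · intro o ho
        exact hX o (cw_supp ho).2
      · intro o ho
        have h1 := (cw_supp ho).1
        refine vt_eq ht (hZ o (cw_supp ho).2) ?_
        intro h2
        exact hz0 (by rw [← h1]; exact (hzero _).2 h2)

/-- `v_q(X)` is known and `q ^ t` divides `Z` -/
theorem caseRU (hη : 0 ≤ η) (hσ : 0 < σ) (hcol : ColProp η σ) (hK : 0 ≤ K) (hIH : IH η K T P)
    {b : ℝ} (hb : Real.log 2 ≤ σ * b) : ∀ s : ℕ, s ≤ T →
    ∀ (Ω Ω' : Type) [Fintype Ω] [Fintype Ω'] (w : Ω → ℝ) (w' : Ω' → ℝ) (X : Ω → ℤ)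
      (Z : Ω' → ℤ) (a : ℕ), IsPr w → IsPr w' → (∀ o, w o ≠ 0 → vt T q (X o) = a) →
      (∀ o, w' o ≠ 0 → (q : ℤ) ^ (T - s) ∣ Z o) → Cl η (K + b) T (insert q P) w w' X Z := by
  classical
  have hl2 : 0 < Real.log 2 := Real.log_pos (by norm_num)
  have hb0 : 0 ≤ b := by
    by_contra hcon
    push Not at hcon
    nlinarith
  intro s
  induction s with
  | zero =>
    intro _ Ω Ω' _ _ w w' X Z a hw hw' hX hZ
    refine Cl.mono (caseRR hIH q hw hw' X Z a T hX ?_) (by linarith)
    intro o ho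
    have := hZ o ho
    rw [Nat.sub_zero] at this
    exact vt_top this
  | succ s ih =>
    intro hs Ω Ω' _ _ w w' X Z a hw hw' hX hZ
    have hts : T - (s + 1) + 1 = T - s := by omega
    have htT : T - (s + 1) < T := by omega
    have hnext := ih (by omega)
    rw [← hts] at hnext
    by_cases hm : mass w' (fun o => ¬ (q : ℤ) ^ (T - (s + 1) + 1) ∣ Z o) ≤ σ
    · exact caseRU_small hη hcol hK hIH hb0 htT hnext hw hw' X Z a hX hZ hm
    · push Not at hm
      set J : Ω' → Prop := fun o => (q : ℤ) ^ (T - (s + 1) + 1) ∣ Z o with hJ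
      have h1 := cell_step hη hw hw' X Z
        (fun p => (vP T (insert q P) (X p.1), vP T (insert q P) (Z p.2))) (fun _ => ()) J
        (fun _ j => if j then K + b else K) (by
          intro _ j
          split_ifs <;> linarith) (by
          intro u j hu hj
          have hw1 := cw_isPr hw _ u hu
          have hw2 := cw_isPr hw' _ j hj
          by_cases hjj : j
          · rw [if_pos hjj]
            have hj' : j = True := eq_true hjj
            refine caseRU_small hη hcol hK hIH hb0 htT hnext hw1 hw2 X Z a ?_ ?_ ?_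
            · intro o ho
              exact hX o (cw_supp ho).2
            · intro o ho
              exact hZ o (cw_supp ho).2
            · have h2 : mass (cw w' J j) (fun o => ¬ (q : ℤ) ^ (T - (s + 1) + 1) ∣ Z o) = 0 := by
                unfold mass
                apply sum_eq_zero
                intro o _
                by_cases h3 : cw w' J j o = 0
                · rw [h3, ite_self]
                · have h4 := (cw_supp h3).1
                  rw [hj'] at h4
                  rw [if_neg (not_not.2 (of_eq_true h4))]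
              rw [h2]
              exact hσ.le
          · rw [if_neg hjj]
            refine caseRR hIH q hw1 hw2 X Z a (T - (s + 1)) ?_ ?_
            · intro o ho
              exact hX o (cw_supp ho).2
            · intro o ho
              have h4 := (cw_supp ho).1
              refine vt_eq htT (hZ o (cw_supp ho).2) ?_
              intro h5
              apply hjj
              rw [← h4]
              exact h5)
      have h2 : CE (prodW w w') (fun p => ((), J p.2)) (fun p => X p.1 + Z p.2) ≤ Real.log 2 := by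
        refine (CE_mono (hw.prod hw') (f := fun p => J p.2) ?_).trans
          ((CE_le_Ent (hw.prod hw') (fun p => J p.2) _).trans ?_)
        · intro o o' _ h
          simp only [h]
        · exact Ent_prop_le (hw.prod hw') (fun p => J p.2)
      have h3 : CE w X (fun _ => ()) ≤ Ent w X := CE_le_Ent hw _ _
      have h4 : CE w' Z J ≤ Ent w' Z := CE_le_Ent hw' _ _
      have h5 : ∑ a ∈ univ.image (fun _ : Ω => ()), ∑ j ∈ univ.image J,
          pr w (fun _ => ()) a * pr w' J j * (if j then K + b else K) = K + mass w' J * b := by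
        have sA := sum_pr_one hw (fun _ => ())
        have sB := sum_pr_one hw' J
        have h6 : ∑ j ∈ univ.image J, pr w' J j * (if j then K + b else K) =
            K + mass w' J * b := by
          rw [sum_bit hw' J (fun j => if j then K + b else K), if_pos trivial,
            if_neg (fun h => h)]
          ring
        have h9 : ∀ a ∈ univ.image (fun _ : Ω => ()), ∑ j ∈ univ.image J,
            pr w (fun _ => ()) a * pr w' J j * (if j then K + b else K) =
            pr w (fun _ => ()) a * (K + mass w' J * b) := by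
          intro a _
          rw [← h6, mul_sum]
          exact sum_congr rfl fun j _ => by ring
        rw [sum_congr rfl h9, ← sum_mul, sA, one_mul]
      have h6 := mass_not hw' J
      have h7 : mass w' J = 1 - mass w' (fun o => ¬ J o) := by
        rw [h6]; ring
      have h8 : σ < mass w' (fun o => ¬ J o) := hm
      unfold Cl
      rw [h5, h7] at h1
      nlinarith

/-- the same for known `v_q(Z)` -/
theorem caseUR (hη : 0 ≤ η) (hσ : 0 < σ) (hcol : ColProp η σ) (hK : 0 ≤ K) (hIH : IH η K T P)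
    {b : ℝ} (hb : Real.log 2 ≤ σ * b) {s : ℕ} (hs : s ≤ T)
    {w : Ω → ℝ} {w' : Ω' → ℝ} (hw : IsPr w) (hw' : IsPr w') (X : Ω → ℤ) (Z : Ω' → ℤ) (a : ℕ)
    (hZ : ∀ o, w' o ≠ 0 → vt T q (Z o) = a) (hX : ∀ o, w o ≠ 0 → (q : ℤ) ^ (T - s) ∣ X o) :
    Cl η (K + b) T (insert q P) w w' X Z :=
  (caseRU hη hσ hcol hK hIH hb s hs Ω' Ω w' w Z X a hw' hw hZ hX).swap

/-- `q ^ t` divides `X` and `Z`, and `q ^ (t + 1)` mostly divides `Z` -/
theorem caseUU_small (hη : 0 ≤ η) (hσ : 0 < σ) (hcol : ColProp η σ) (hK : 0 ≤ K)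
    (hIH : IH η K T P) {b c : ℝ} (hb : Real.log 2 ≤ σ * b) (hbc : b ≤ c) (hb0 : 0 ≤ b) {s : ℕ}
    (hs : s + 1 ≤ T)
    (hnext : ∀ (Ω Ω' : Type) [Fintype Ω] [Fintype Ω'] (w : Ω → ℝ) (w' : Ω' → ℝ) (X : Ω → ℤ)
      (Z : Ω' → ℤ), IsPr w → IsPr w' → (∀ o, w o ≠ 0 → (q : ℤ) ^ (T - s) ∣ X o) →
      (∀ o, w' o ≠ 0 → (q : ℤ) ^ (T - s) ∣ Z o) → Cl η (K + c) T (insert q P) w w' X Z)
    {w : Ω → ℝ} {w' : Ω' → ℝ} (hw : IsPr w) (hw' : IsPr w') (X : Ω → ℤ) (Z : Ω' → ℤ)
    (hX : ∀ o, w o ≠ 0 → (q : ℤ) ^ (T - (s + 1)) ∣ X o)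
    (hZ : ∀ o, w' o ≠ 0 → (q : ℤ) ^ (T - (s + 1)) ∣ Z o)
    (hm : mass w' (fun o => ¬ (q : ℤ) ^ (T - s) ∣ Z o) ≤ σ) :
    Cl η (K + c) T (insert q P) w w' X Z := by
  unfold Cl
  have hts : T - (s + 1) + 1 = T - s := by omega
  have htT : T - (s + 1) < T := by omega
  have hzero : ∀ x : ℤ, ((x : ℤ) : ZMod (q ^ (T - s))) = 0 ↔ (q : ℤ) ^ (T - s) ∣ x := by
    intro x
    rw [← Int.cast_zero, ZMod.intCast_eq_intCast_iff_dvd_sub, zero_sub, dvd_neg]
    push_cast
    rfl
  apply step_mod hη hcol hw hw' X Z (q ^ (T - s))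
  · refine le_trans (mass_mono hw' ?_) hm
    intro o ho hd
    exact ho ((hzero _).2 hd)
  · linarith
  · intro x z hx hz
    have hw1 := cw_isPr hw _ x hx
    have hw2 := cw_isPr hw' _ z hz
    have X0 : x = 0 → ∀ o, cw w (fun o => ((X o : ℤ) : ZMod (q ^ (T - s)))) x o ≠ 0 →
        (q : ℤ) ^ (T - s) ∣ X o := by
      intro hx0 o ho
      have h1 := (cw_supp ho).1
      rw [hx0] at h1
      exact (hzero _).1 h1
    have Z0 : z = 0 → ∀ o, cw w' (fun o => ((Z o : ℤ) : ZMod (q ^ (T - s)))) z o ≠ 0 →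
        (q : ℤ) ^ (T - s) ∣ Z o := by
      intro hx0 o ho
      have h1 := (cw_supp ho).1
      rw [hx0] at h1
      exact (hzero _).1 h1
    have X1 : x ≠ 0 → ∀ o, cw w (fun o => ((X o : ℤ) : ZMod (q ^ (T - s)))) x o ≠ 0 →
        vt T q (X o) = T - (s + 1) := by
      intro hx0 o ho
      have h1 := (cw_supp ho).1
      refine vt_eq htT (hX o (cw_supp ho).2) ?_
      rw [hts]
      intro h2
      exact hx0 (by rw [← h1]; exact (hzero _).2 h2)
    have Z1 : z ≠ 0 → ∀ o, cw w' (fun o => ((Z o : ℤ) : ZMod (q ^ (T - s)))) z o ≠ 0 →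
        vt T q (Z o) = T - (s + 1) := by
      intro hx0 o ho
      have h1 := (cw_supp ho).1
      refine vt_eq htT (hZ o (cw_supp ho).2) ?_
      rw [hts]
      intro h2
      exact hx0 (by rw [← h1]; exact (hzero _).2 h2)
    by_cases hx0 : x = 0
    · by_cases hz0 : z = 0
      · exact hnext _ _ _ _ _ _ hw1 hw2 (X0 hx0) (Z0 hz0)
      · exact Cl.mono (caseUR hη hσ hcol hK hIH hb (by omega) hw1 hw2 X Z _ (Z1 hz0) (X0 hx0))
          (by linarith)
    · by_cases hz0 : z = 0
      · exact Cl.mono (caseRU hη hσ hcol hK hIH hb s (by omega) _ _ _ _ X Z _ hw1 hw2 (X1 hx0)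
          (Z0 hz0)) (by linarith)
      · exact Cl.mono (caseRR hIH q hw1 hw2 X Z _ _ (X1 hx0) (Z1 hz0)) (by linarith)

/-- `q ^ t` divides `X` and `Z` -/
theorem caseUU (hη : 0 ≤ η) (hσ : 0 < σ) (hcol : ColProp η σ) (hK : 0 ≤ K) (hIH : IH η K T P)
    {b c : ℝ} (hb : Real.log 2 ≤ σ * b) (hc : 2 * Real.log 2 ≤ σ * (c - b)) : ∀ s : ℕ, s ≤ T →
    ∀ (Ω Ω' : Type) [Fintype Ω] [Fintype Ω'] (w : Ω → ℝ) (w' : Ω' → ℝ) (X : Ω → ℤ)
      (Z : Ω' → ℤ), IsPr w → IsPr w' → (∀ o, w o ≠ 0 → (q : ℤ) ^ (T - s) ∣ X o) →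
      (∀ o, w' o ≠ 0 → (q : ℤ) ^ (T - s) ∣ Z o) → Cl η (K + c) T (insert q P) w w' X Z := by
  classical
  have hl2 : 0 < Real.log 2 := Real.log_pos (by norm_num)
  have hb0 : 0 ≤ b := by
    by_contra hcon
    push Not at hcon
    nlinarith
  have hbc : b ≤ c := by
    by_contra hcon
    push Not at hcon
    nlinarith
  intro s
  induction s with
  | zero =>
    intro _ Ω Ω' _ _ w w' X Z hw hw' hX hZ
    refine Cl.mono (caseRR hIH q hw hw' X Z T T ?_ ?_) (by linarith)
    · intro o ho
      have := hX o ho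
      rw [Nat.sub_zero] at this
      exact vt_top this
    · intro o ho
      have := hZ o ho
      rw [Nat.sub_zero] at this
      exact vt_top this
  | succ s ih =>
    intro hs Ω Ω' _ _ w w' X Z hw hw' hX hZ
    have hts : T - (s + 1) + 1 = T - s := by omega
    have htT : T - (s + 1) < T := by omega
    have hnext := ih (by omega)
    by_cases hm : mass w' (fun o => ¬ (q : ℤ) ^ (T - s) ∣ Z o) ≤ σ
    · exact caseUU_small hη hσ hcol hK hIH hb hbc hb0 hs hnext hw hw' X Z hX hZ hm
    by_cases hm' : mass w (fun o => ¬ (q : ℤ) ^ (T - s) ∣ X o) ≤ σ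
    · exact (caseUU_small hη hσ hcol hK hIH hb hbc hb0 hs hnext hw' hw Z X hZ hX hm').swap
    push Not at hm hm'
    set I : Ω → Prop := fun o => (q : ℤ) ^ (T - s) ∣ X o with hI
    set J : Ω' → Prop := fun o => (q : ℤ) ^ (T - s) ∣ Z o with hJ
    have h1 := cell_step hη hw hw' X Z
      (fun p => (vP T (insert q P) (X p.1), vP T (insert q P) (Z p.2))) I J
      (fun i j => if i then (if j then K + c else K + b) else K + b) (by
        intro i j
        split_ifs <;> linarith) (by
        intro i j hi hj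
        have hw1 := cw_isPr hw _ i hi
        have hw2 := cw_isPr hw' _ j hj
        have X0 : i → ∀ o, cw w I i o ≠ 0 → (q : ℤ) ^ (T - s) ∣ X o := by
          intro hi o ho
          have h1 := (cw_supp ho).1
          have h2 : I o := by rw [h1]; exact hi
          exact h2
        have Z0 : j → ∀ o, cw w' J j o ≠ 0 → (q : ℤ) ^ (T - s) ∣ Z o := by
          intro hi o ho
          have h1 := (cw_supp ho).1
          have h2 : J o := by rw [h1]; exact hi
          exact h2
        have X1 : ¬ i → ∀ o, cw w I i o ≠ 0 → vt T q (X o) = T - (s + 1) := by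
          intro hi o ho
          have h1 := (cw_supp ho).1
          refine vt_eq htT (hX o (cw_supp ho).2) ?_
          rw [hts]
          intro h2
          apply hi
          rw [← h1]
          exact h2
        have Z1 : ¬ j → ∀ o, cw w' J j o ≠ 0 → vt T q (Z o) = T - (s + 1) := by
          intro hi o ho
          have h1 := (cw_supp ho).1
          refine vt_eq htT (hZ o (cw_supp ho).2) ?_
          rw [hts]
          intro h2
          apply hi
          rw [← h1]
          exact h2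
        by_cases hii : i
        · by_cases hjj : j
          · rw [if_pos hii, if_pos hjj]
            exact hnext _ _ _ _ X Z hw1 hw2 (X0 hii) (Z0 hjj)
          · rw [if_pos hii, if_neg hjj]
            exact caseUR hη hσ hcol hK hIH hb (s := s) (by omega) hw1 hw2 X Z _ (Z1 hjj) (X0 hii)
        · rw [if_neg hii]
          by_cases hjj : j
          · exact caseRU hη hσ hcol hK hIH hb s (by omega) _ _ _ _ X Z _ hw1 hw2 (X1 hii) (Z0 hjj)
          · exact Cl.mono (caseRR hIH q hw1 hw2 X Z _ _ (X1 hii) (Z1 hjj)) (by linarith))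
    have hp := hw.prod hw'
    have h2 : CE (prodW w w') (fun p => (I p.1, J p.2)) (fun p => X p.1 + Z p.2) ≤
        2 * Real.log 2 := by
      have e1 := CE_pair_le hp (fun p => I p.1) (fun p => J p.2) (fun p => X p.1 + Z p.2)
      have e2 := (CE_le_Ent hp (fun p => I p.1) (fun p => X p.1 + Z p.2)).trans
        (Ent_prop_le hp (fun p => I p.1))
      have e3 := (CE_le_Ent hp (fun p => J p.2) (fun p => X p.1 + Z p.2)).trans
        (Ent_prop_le hp (fun p => J p.2))
      linarith
    have h3 : CE w X I ≤ Ent w X := CE_le_Ent hw _ _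
    have h4 : CE w' Z J ≤ Ent w' Z := CE_le_Ent hw' _ _
    have h5 : ∑ i ∈ univ.image I, ∑ j ∈ univ.image J,
        pr w I i * pr w' J j * (if i then (if j then K + c else K + b) else K + b) =
        mass w I * (mass w' J * (K + c) + (1 - mass w' J) * (K + b)) +
          (1 - mass w I) * (K + b) := by
      have h6 : ∀ i ∈ univ.image I, ∑ j ∈ univ.image J,
          pr w I i * pr w' J j * (if i then (if j then K + c else K + b) else K + b) =
          pr w I i * (mass w' J * (if i then K + c else K + b) + (1 - mass w' J) * (K + b)) := by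
        intro i _
        have h7 := sum_bit hw' J (fun j => if i then (if j then K + c else K + b) else K + b)
        have h8 : ∑ j ∈ univ.image J,
            pr w I i * pr w' J j * (if i then (if j then K + c else K + b) else K + b) =
            pr w I i * ∑ j ∈ univ.image J,
            pr w' J j * (if i then (if j then K + c else K + b) else K + b) := by
          rw [mul_sum]
          exact sum_congr rfl fun j _ => by ring
        rw [h8, h7, if_pos trivial, if_neg (fun h => h)]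
        congr 2
        split_ifs <;> ring
      rw [sum_congr rfl h6, sum_bit hw I (fun i => mass w' J * (if i then K + c else K + b) +
        (1 - mass w' J) * (K + b)), if_pos trivial, if_neg (fun h => h)]
      ring
    have h6 := mass_not hw I
    have h7 := mass_not hw' J
    have h8 : σ < mass w (fun o => ¬ I o) := hm'
    have h9 : σ < mass w' (fun o => ¬ J o) := hm
    have h10 := mass_nonneg hw I
    have h11 := mass_nonneg hw' J
    have h12 := mass_le_one hw I
    have h13 := mass_le_one hw' J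
    unfold Cl
    rw [h5] at h1
    set mI := mass w I with hmI
    set mJ := mass w' J with hmJ
    have h14 : mI * mJ ≤ 1 - σ := by nlinarith
    have h15 : mI * mJ * (c - b) ≤ (1 - σ) * (c - b) :=
      mul_le_mul_of_nonneg_right h14 (by linarith)
    nlinarith

end q

/-- **M2, Phase 1** -/
theorem phaseOne : PhaseOne := by
  classical
  intro η hη
  obtain ⟨σ, hσ, -, hcol⟩ := group_column η hη
  have hl2 : 0 < Real.log 2 := Real.log_pos (by norm_num)
  have hcol' : ColProp η σ := hcol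
  refine ⟨3 * Real.log 2 / σ, by positivity, ?_⟩
  intro Ω Ω' _ _ w w' X Z T P hw hw'
  have main : ∀ P : Finset ℕ, IH η (3 * Real.log 2 / σ * P.card) T P := by
    intro P
    induction P using Finset.induction_on with
    | empty =>
      intro Ω Ω' _ _ w w' X Z hw hw'
      unfold Cl
      have h1 : CE (prodW w w') (fun p => (vP T ∅ (X p.1), vP T ∅ (Z p.2)))
          (fun p => X p.1 + Z p.2) = 0 := by
        apply CE_zero_of_supp
        intro o o' _ _ _
        have e : ∀ x : ℤ, vP T ∅ x = fun _ => 0 := by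
          intro x
          funext q
          simp [vP]
        simp only [e]
      rw [h1]
      have h2 := Ent_nonneg hw X
      have h3 := Ent_nonneg hw' Z
      simp only [card_empty, Nat.cast_zero, mul_zero, add_zero]
      positivity
    | insert q P hq ih =>
      intro Ω Ω' _ _ w w' X Z hw hw'
      rw [card_insert_of_notMem hq]
      push_cast
      have h1 := caseUU (q := q) hη.le hσ hcol' (by positivity) ih (b := Real.log 2 / σ)
        (c := 3 * Real.log 2 / σ) (by field_simp; exact le_rfl) (by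
          apply le_of_eq
          field_simp
          ring) T le_rfl Ω Ω' w w' X Z hw hw' (by
          intro o _
          rw [Nat.sub_self, pow_zero]
          exact one_dvd _) (by
          intro o _
          rw [Nat.sub_self, pow_zero]
          exact one_dvd _)
      refine h1.mono (le_of_eq ?_)
      ring
  have h := main P Ω Ω' w w' X Z hw hw'
  exact h

end Pool.Agent.Helper78.PP
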